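import Mathlib
import Pool.Agent.Helper95.FL.StmtsG

set_option autoImplicit false

/-!
# Existence of the field data (piece XT-F of project FL)
-/

namespace Pool.Agent.Helper94.FL

open Pool.Agent.Helper95.FL Polynomial

/-- A primitive root of order `card K - 1` in a finite field. -/
lemma exists_gen (K : Type) [Field K] [Fintype K] :
    ∃ ζ : K, IsPrimitiveRoot ζ (Fintype.card K - 1) := by
  obtain ⟨g, hg⟩ := IsCyclic.exists_generator (α := Kˣ)
  refine ⟨(g : K), ?_⟩
  have h1 : orderOf g = Nat.card Kˣ := orderOf_eq_card_of_forall_mem_zpowers hg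
  have h2 : Nat.card Kˣ = Fintype.card K - 1 := by
    rw [Nat.card_units, Nat.card_eq_fintype_card]
  rw [IsPrimitiveRoot.coe_units_iff, ← h2, ← h1]
  exact IsPrimitiveRoot.orderOf g

lemma arith_dvd {p m l : ℕ} (hp : 2 ≤ p) (hm : Odd m) (hl : 0 < l) (hlm : l < m) :
    ¬ (p ^ m - 1 ∣ p ^ (2 * l) - 1) := by
  intro h
  have h1 : Nat.gcd (p ^ m - 1) (p ^ (2 * l) - 1) = p ^ m - 1 := Nat.gcd_eq_left h
  rw [Nat.pow_sub_one_gcd_pow_sub_one] at h1
  have hm1 : 1 ≤ p ^ m := Nat.one_le_pow _ _ (by omega)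
  have hm2 : 1 ≤ p ^ (Nat.gcd m (2 * l)) := Nat.one_le_pow _ _ (by omega)
  have h2 : p ^ (Nat.gcd m (2 * l)) = p ^ m := by omega
  have h3 : Nat.gcd m (2 * l) = m := Nat.pow_right_injective hp h2
  have h4 : m ∣ 2 * l := by rw [← h3]; exact Nat.gcd_dvd_right _ _
  have h5 : m ∣ l := Nat.Coprime.dvd_of_dvd_mul_left (Nat.Coprime.symm (Nat.coprime_two_left.2 hm)) h4
  exact absurd (Nat.le_of_dvd hl h5) (by omega)

lemma core (K : Type) [Field K] [Fintype K] (p m : ℕ) [Fact p.Prime] [CharP K p]
    (hodd : Odd m) (hm : 3 ≤ m) (hcard : Fintype.card K = p ^ (2 * m)) :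
    ∃ F : FD K m, Nat.card {c : K // F.τ c = c ∧ c + F.st c + F.st c * c = 0} = p + 1 := by
  have hp : p.Prime := Fact.out
  have hp2 : 2 ≤ p := hp.two_le
  obtain ⟨ζ, hζ⟩ := exists_gen K
  rw [hcard] at hζ
  have hpm : 1 ≤ p ^ m := Nat.one_le_pow _ _ (by omega)
  have hpm2 : 2 ≤ p ^ m := le_trans hp2 (Nat.le_self_pow (by omega) p)
  have hfac : p ^ (2 * m) - 1 = (p ^ m + 1) * (p ^ m - 1) := by
    rw [← Nat.sq_sub_sq, ← pow_mul, mul_comm m 2, one_pow]
  have hpos : 0 < p ^ (2 * m) - 1 := by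
    rw [hfac]; apply Nat.mul_pos <;> omega
  have hθ : IsPrimitiveRoot (ζ ^ (p ^ m + 1)) (p ^ m - 1) := hζ.pow hpos hfac
  set θ : K := ζ ^ (p ^ m + 1) with hθdef
  have hpow : ∀ x : K, x ^ p ^ (2 * m) = x := fun x => by rw [← hcard]; exact FiniteField.pow_card x
  have hst : ∀ x : K, iterateFrobeniusEquiv K p m x = x ^ p ^ m := fun x => rfl
  have hτ : ∀ x : K, iterateFrobeniusEquiv K p 2 x = x ^ p ^ 2 := fun x => rfl
  have hθne : θ ≠ 0 := hθ.ne_zero (by omega)
  have hθfix : ∀ l, 0 < l → l < m → θ ^ p ^ (2 * l) ≠ θ := by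
    intro l hl hlm h
    have h1 : θ ^ (p ^ (2 * l) - 1) = 1 := by
      have h2 : θ ^ (p ^ (2 * l) - 1) * θ = 1 * θ := by
        rw [← pow_succ, Nat.sub_add_cancel (Nat.one_le_pow _ _ (by omega)), h, one_mul]
      exact mul_right_cancel₀ hθne h2
    exact arith_dvd hp2 hodd hl hlm (hθ.dvd_of_pow_eq_one _ h1)
  have hinj : Function.Injective fun i : Fin m => θ ^ p ^ (2 * (i : ℕ)) := by
    have key : ∀ i j : Fin m, i < j → θ ^ p ^ (2 * (i : ℕ)) ≠ θ ^ p ^ (2 * (j : ℕ)) := by
      intro i j hij h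
      have hij' : (i : ℕ) < (j : ℕ) := hij
      have e2 : p ^ (2 * (j : ℕ)) = p ^ (2 * ((j : ℕ) - (i : ℕ))) * p ^ (2 * (i : ℕ)) := by
        rw [← pow_add]; congr 1; omega
      have h' : θ ^ p ^ (2 * (i : ℕ)) = (θ ^ p ^ (2 * ((j : ℕ) - (i : ℕ)))) ^ p ^ (2 * (i : ℕ)) := by
        rw [← pow_mul θ, ← e2]; exact h
      have h2 : θ ^ p ^ (2 * ((j : ℕ) - (i : ℕ))) = θ := by
        have := (iterateFrobeniusEquiv K p (2 * (i : ℕ))).injective
        exact (this (by rw [iterateFrobeniusEquiv_def, iterateFrobeniusEquiv_def]; exact h')).symm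
      exact hθfix _ (by omega) (by have := j.2; omega) h2
    intro i j h
    rcases lt_trichotomy i j with h1 | h1 | h1
    · exact absurd h (key i j h1)
    · exact h1
    · exact absurd h.symm (key j i h1)
  let F : FD K m :=
    { st := iterateFrobeniusEquiv K p m
      τ := iterateFrobeniusEquiv K p 2
      θ := θ
      st_st := fun x => by
        rw [hst, hst, ← pow_mul, ← pow_add, ← two_mul]; exact hpow x
      comm := fun x => by
        rw [hst, hτ, hst, hτ, ← pow_mul, ← pow_mul, mul_comm]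
      st_θ := by
        rw [hst]
        have : θ ^ (p ^ m - 1) = 1 := hθ.pow_eq_one
        calc θ ^ p ^ m = θ ^ (p ^ m - 1 + 1) := by rw [Nat.sub_add_cancel hpm]
          _ = θ := by rw [pow_succ, this, one_mul]
      τ_θ := by
        rw [hτ]
        exact hθfix 1 (by omega) (by omega)
      θ_ne := hθne
      gen := by
        intro f hf hdeg hev
        apply Polynomial.eq_zero_of_natDegree_lt_card_of_eval_eq_zero f hinj
        · intro i
          have key : ∀ k : ℕ, f.eval (θ ^ p ^ (2 * k)) = 0 := by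
            intro k
            induction k with
            | zero => simpa using hev
            | succ k ih =>
              have hmap : f.map ((iterateFrobeniusEquiv K p 2 : K ≃+* K) : K →+* K) = f := by
                ext n
                rw [Polynomial.coeff_map]
                exact hf n
              have e : p ^ (2 * (k + 1)) = p ^ (2 * k) * p ^ 2 := by
                rw [← pow_add]; congr 1
              rw [e, pow_mul, ← hτ]
              have h2 := Polynomial.eval_map_apply
                (((iterateFrobeniusEquiv K p 2 : K ≃+* K) : K →+* K)) (θ ^ p ^ (2 * k)) (p := f)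
              rw [hmap, ih, map_zero] at h2
              exact h2
          exact key i
        · simpa using hdeg }
  refine ⟨F, ?_⟩
  -- the number of norm one elements
  have hpp : p + 1 ∣ p ^ (2 * m) - 1 := by
    have h1 : p ^ 2 - 1 ∣ p ^ (2 * m) - 1 := by
      have := Nat.sub_dvd_pow_sub_pow (p ^ 2) 1 m
      rwa [one_pow, ← pow_mul] at this
    have h2 : p + 1 ∣ p ^ 2 - 1 := ⟨p - 1, by rw [← Nat.sq_sub_sq, one_pow]⟩
    exact h2.trans h1
  obtain ⟨a, ha⟩ := hpp
  have hη : IsPrimitiveRoot (ζ ^ a) (p + 1) := hζ.pow hpos (by rw [ha, mul_comm])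
  have hcnt := hη.card_nthRootsFinset
  obtain ⟨k, hk⟩ := hodd
  have hiff : ∀ c : K, (F.τ c = c ∧ c + F.st c + F.st c * c = 0) ↔ (1 + c) ^ (p + 1) = 1 := by
    intro c
    have e1 : F.τ c = c ^ p ^ 2 := rfl
    have e2 : F.st c = c ^ p ^ m := rfl
    have adm : ∀ n : ℕ, (1 + c) ^ p ^ n = 1 + c ^ p ^ n := fun n => by
      rw [add_pow_char_pow, one_pow]
    have iter : ∀ u : K, u ^ p ^ 2 = u → u ^ p ^ m = u ^ p := by
      intro u hu
      have hk2 : ∀ j : ℕ, u ^ p ^ (2 * j) = u := by
        intro j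
        induction j with
        | zero => simp
        | succ j ih => rw [show 2 * (j + 1) = 2 * j + 2 by ring, pow_add, pow_mul, ih, hu]
      rw [hk, pow_succ, pow_mul, hk2]
    constructor
    · rintro ⟨h1, h2⟩
      rw [e1] at h1
      rw [e2] at h2
      have h3 : (1 + c) ^ p ^ 2 = 1 + c := by rw [adm, h1]
      have h4 := iter _ h3
      rw [pow_succ, ← h4, adm]
      linear_combination h2
    · intro h
      have h3 : (1 + c) ^ p ^ 2 = 1 + c := by
        have e : p ^ 2 = (p + 1) * (p - 1) + 1 := by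
          obtain ⟨q, rfl⟩ := Nat.exists_eq_add_of_le hp2
          have : 2 + q - 1 = q + 1 := by omega
          rw [this]; ring
        rw [e, pow_succ, pow_mul, h, one_pow, one_mul]
      have h4 := iter _ h3
      refine ⟨?_, ?_⟩
      · rw [e1]
        rw [adm] at h3
        exact add_left_cancel h3
      · rw [e2]
        rw [pow_succ, ← h4, adm] at h
        linear_combination h
  have hb : Nat.card {c : K // F.τ c = c ∧ c + F.st c + F.st c * c = 0}
      = Nat.card {c : K // c ∈ nthRootsFinset (p + 1) (1 : K)} := by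
    apply Nat.card_congr
    refine (Equiv.addLeft (1 : K)).subtypeEquiv ?_
    intro c
    rw [hiff c, Polynomial.mem_nthRootsFinset (Nat.succ_pos p)]
    rfl
  rw [hb, Nat.card_eq_fintype_card, Fintype.card_coe, hcnt]

theorem stField : StField := by
  intro p m hp hodd hm
  have : Fact p.Prime := ⟨hp⟩
  let _ : Fintype (GaloisField p (2 * m)) := Fintype.ofFinite _
  have hcard : Fintype.card (GaloisField p (2 * m)) = p ^ (2 * m) := by
    rw [← Nat.card_eq_fintype_card]
    exact GaloisField.card p (2 * m) (by omega)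
  obtain ⟨F, hF⟩ := core (GaloisField p (2 * m)) p m hodd hm hcard
  exact ⟨GaloisField p (2 * m), inferInstance, inferInstance, F, hcard, hF⟩

end Pool.Agent.Helper94.FL
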