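import Mathlib
import Pool.Agent.Helper95.FL.Stmts2

set_option autoImplicit false

/-!
# Generic potentials (piece XT-A10 of project FL)
-/

namespace Pool.Agent.Helper94.FL

open Pool.Agent.Helper95.FL
open scoped Classical

/-- Sums of `n` one-term forms supported in `S` with coefficients at most `q`. -/
noncomputable def codes {E : Type} (S : Finset E) (n q : ℕ) : Finset (E → ℤ) :=
  Finset.univ.image (fun c : Fin n → S × (Finset.Icc (-(q : ℤ)) q) =>
    fun e : E => ∑ i, if ((c i).1 : E) = e then ((c i).2 : ℤ) else 0)

lemma card_codes {E : Type} (S : Finset E) (n q : ℕ) :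
    (codes S n q).card ≤ (S.card * (2 * q + 1)) ^ n := by
  refine Finset.card_image_le.trans ?_
  rw [Finset.card_univ, Fintype.card_fun, Fintype.card_prod, Fintype.card_coe, Fintype.card_coe,
    Int.card_Icc, Fintype.card_fin]
  have : ((q : ℤ) + 1 - -(q : ℤ)).toNat = 2 * q + 1 := by omega
  rw [this]

lemma zero_mem_codes {E : Type} {S : Finset E} (hS : S.Nonempty) (n q : ℕ) :
    (0 : E → ℤ) ∈ codes S n q := by
  obtain ⟨e, he⟩ := hS
  refine Finset.mem_image.2 ⟨fun _ => (⟨e, he⟩, ⟨0, by simp⟩), Finset.mem_univ _, ?_⟩
  funext e'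
  simp

lemma succ_mem_codes {E : Type} {S : Finset E} {n q : ℕ} {e : E} (he : e ∈ S) {z : ℤ}
    (hz : |z| ≤ q) {g : E → ℤ} (hg : g ∈ codes S n q) :
    (fun e' => (if e = e' then z else 0) + g e') ∈ codes S (n + 1) q := by
  obtain ⟨c, -, rfl⟩ := Finset.mem_image.1 hg
  refine Finset.mem_image.2 ⟨Fin.cons (⟨e, he⟩, ⟨z, Finset.mem_Icc.2 (abs_le.1 hz)⟩) c,
    Finset.mem_univ _, ?_⟩
  funext e'
  rw [Fin.sum_univ_succ]
  simp

lemma mem_codes_card {E : Type} [Fintype E] {S : Finset E} (hS : S.Nonempty) (q : ℕ) :
    ∀ (n : ℕ) (f : E → ℤ), (∀ e, f e ≠ 0 → e ∈ S) → (∀ e, |f e| ≤ q) →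
      (Finset.univ.filter fun e => f e ≠ 0).card ≤ n → f ∈ codes S n q := by
  intro n
  induction n with
  | zero =>
    intro f _ _ h
    have h0 : f = 0 := by
      funext e
      by_contra hne
      have : e ∈ (Finset.univ.filter fun e => f e ≠ 0) := by simpa using hne
      rw [Finset.card_eq_zero.1 (Nat.le_zero.1 h)] at this
      exact absurd this (Finset.notMem_empty _)
    rw [h0]; exact zero_mem_codes hS 0 q
  | succ n ih =>
    intro f hf hq h
    by_cases h0 : f = 0
    · rw [h0]; exact zero_mem_codes hS _ q
    · obtain ⟨e, he⟩ := Function.ne_iff.1 h0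
      have he' : f e ≠ 0 := he
      set g : E → ℤ := fun e' => if e = e' then 0 else f e' with hg
      have hgm : g ∈ codes S n q := by
        apply ih
        · intro e' he2
          by_cases h2 : e = e'
          · simp [hg, h2] at he2
          · apply hf; simpa [hg, h2] using he2
        · intro e'
          by_cases h2 : e = e'
          · simp [hg, h2]
          · simpa [hg, h2] using hq e'
        · have hsub : (Finset.univ.filter fun e' => g e' ≠ 0) ⊆
              (Finset.univ.filter fun e' => f e' ≠ 0).erase e := by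
            intro e' he2
            simp only [Finset.mem_filter, Finset.mem_univ, true_and] at he2
            by_cases h2 : e = e'
            · simp [hg, h2] at he2
            · simp only [Finset.mem_erase, Finset.mem_filter, Finset.mem_univ, true_and]
              exact ⟨fun h3 => h2 h3.symm, by simpa [hg, h2] using he2⟩
          have h3 := Finset.card_le_card hsub
          rw [Finset.card_erase_of_mem (by simpa using he')] at h3
          omega
      have := succ_mem_codes (hf e he') (hq e) hgm
      convert this using 1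
      funext e'
      by_cases h2 : e = e'
      · subst h2; simp [hg]
      · simp [hg, h2]

lemma mem_codes_sum {E : Type} [Fintype E] {S : Finset E} (hS : S.Nonempty) :
    ∀ (n : ℕ) (f : E → ℤ), (∀ e, f e ≠ 0 → e ∈ S) → ∑ e, |f e| ≤ n → f ∈ codes S n 1 := by
  intro n
  induction n with
  | zero =>
    intro f _ h
    have h0 : f = 0 := by
      funext e
      have h1 : |f e| ≤ ∑ e, |f e| :=
        Finset.single_le_sum (f := fun e => |f e|) (fun e _ => abs_nonneg _) (Finset.mem_univ e)
      have h2 : |f e| ≤ 0 := h1.trans (by simpa using h)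
      exact abs_nonpos_iff.1 h2
    rw [h0]; exact zero_mem_codes hS 0 1
  | succ n ih =>
    intro f hf h
    by_cases h0 : f = 0
    · rw [h0]; exact zero_mem_codes hS _ 1
    · obtain ⟨e, he⟩ := Function.ne_iff.1 h0
      have he' : f e ≠ 0 := he
      set z : ℤ := if 0 < f e then 1 else -1 with hz
      have hz1 : |z| ≤ ((1 : ℕ) : ℤ) := by
        rw [hz]; split_ifs <;> simp
      have hz2 : |f e - z| = |f e| - 1 := by
        rw [hz]
        rcases lt_or_gt_of_ne he' with h1 | h1
        · rw [if_neg (by omega), abs_of_neg h1, abs_of_nonpos (by omega)]; ring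
        · rw [if_pos h1, abs_of_pos h1, abs_of_nonneg (by omega)]
      set g : E → ℤ := fun e' => if e = e' then f e' - z else f e' with hg
      have hgm : g ∈ codes S n 1 := by
        apply ih
        · intro e' he2
          by_cases h2 : e = e'
          · subst h2; exact hf e he'
          · apply hf; simpa [hg, h2] using he2
        · have h1 : ∑ e', |g e'| = |g e| + ∑ e' ∈ Finset.univ.erase e, |g e'| :=
            (Finset.add_sum_erase _ (fun e' => |g e'|) (Finset.mem_univ e)).symm
          have h2 : ∑ e', |f e'| = |f e| + ∑ e' ∈ Finset.univ.erase e, |f e'| :=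
            (Finset.add_sum_erase _ (fun e' => |f e'|) (Finset.mem_univ e)).symm
          have h3 : ∑ e' ∈ Finset.univ.erase e, |g e'| = ∑ e' ∈ Finset.univ.erase e, |f e'| := by
            apply Finset.sum_congr rfl
            intro e' he3
            have : e ≠ e' := fun h4 => (Finset.ne_of_mem_erase he3) h4.symm
            simp [hg, this]
          have h4 : |g e| = |f e| - 1 := by rw [← hz2]; simp [hg]
          push_cast at h
          rw [h1, h3, h4]; linarith
      have := succ_mem_codes (hf e he') hz1 hgm
      convert this using 1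
      funext e'
      by_cases h2 : e = e'
      · subst h2; simp [hg]
      · simp [hg, h2]

lemma pair_pot {V : Type} [Fintype V] (f : V × V → ℤ) (P : V → ℤ) :
    pair f (pot P) = ∑ v, dvg f v * P v := by
  simp only [pair, pot, dvg, Fintype.sum_prod_type, mul_sub, sub_mul, Finset.sum_sub_distrib,
    Finset.sum_mul]
  congr 1
  exact Finset.sum_comm

theorem stPot (h : StGeneric) : StPot := by
  intro X V _ 𝒞 Ne Q hNe
  set S : Finset (V × V) := Finset.univ.filter fun e => 𝒞.IsEdge e with hS
  set F : Finset (V → ℤ) := ((codes S 4 Q ∪ codes S 5 1).image fun f => dvg f).filter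
    fun g => g ≠ 0 with hF
  obtain ⟨P, hP, hPF⟩ := h V F (fun g hg => (Finset.mem_filter.1 hg).2)
  refine ⟨P, fun v => ⟨(hP v).1, (hP v).2.trans ?_⟩, ?_⟩
  · have h1 : F.card ≤ (Ne * (2 * Q + 1)) ^ 4 + (3 * Ne) ^ 5 := by
      refine (Finset.card_filter_le _ _).trans (Finset.card_image_le.trans
        ((Finset.card_union_le _ _).trans (add_le_add ?_ ?_)))
      · exact (card_codes S 4 Q).trans
          (Nat.pow_le_pow_left (Nat.mul_le_mul_right _ hNe) 4)
      · refine (card_codes S 5 1).trans (Nat.pow_le_pow_left ?_ 5)
        omega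
    exact_mod_cast h1
  · intro f hsupp hsmall hQ hC
    have hfS : ∀ e, f e ≠ 0 → e ∈ S := fun e he => by
      rw [hS]; simpa using hsupp e he
    have hne : S.Nonempty := by
      by_contra hemp
      rw [Finset.not_nonempty_iff_eq_empty] at hemp
      apply hC
      have h0 : ∀ e, f e = 0 := by
        intro e
        by_contra he
        have := hfS e he
        rw [hemp] at this
        exact absurd this (Finset.notMem_empty _)
      intro v
      simp [dvg, h0]
    have hmem : f ∈ codes S 4 Q ∪ codes S 5 1 := by
      rcases hsmall with h4 | h5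
      · exact Finset.mem_union_left _ (mem_codes_card hne Q 4 f hfS hQ h4)
      · exact Finset.mem_union_right _ (mem_codes_sum hne 5 f hfS (by simpa using h5))
    rw [pair_pot]
    apply hPF
    rw [hF]
    refine Finset.mem_filter.2 ⟨Finset.mem_image.2 ⟨f, hmem, rfl⟩, ?_⟩
    intro h0
    exact hC fun v => congrFun h0 v

end Pool.Agent.Helper94.FL
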